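import Mathlib

set_option autoImplicit false
set_option maxHeartbeats 4000000

namespace Pool.Agent.Results.MP_a176d3_co.NotRealizable

/-- The vertices of the rooted `k`-ary tree `T_k` of depth `k - 1`: the words over `Fin k`
of length at most `k - 1`. The empty word is the root, the length of a word is its level, and
the children of a word `v` of length less than `k - 1` are the words `v ++ [i]`. -/
def TreeVertex (k : ℕ) : Type := {l : List (Fin k) // l.length < k}

/-- The set of children of a vertex of `T_k`. -/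
def childrenOf {k : ℕ} (v : TreeVertex k) : Set (TreeVertex k) :=
  {w | ∃ i : Fin k, w.1 = v.1 ++ [i]}

/-- The set of vertices on the path from the root of `T_k` to the vertex `v`. -/
def pathTo {k : ℕ} (v : TreeVertex k) : Set (TreeVertex k) :=
  {w | w.1 <+: v.1}

/-- The edges of the hypergraph `H_k = H(T_k)`: the sibling edges (the set of children of each
non-leaf vertex) and the descendent edges (the root-to-leaf path of each leaf). The leaves are
the vertices of level `k - 1`. -/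
def treeEdges (k : ℕ) : Set (Set (TreeVertex k)) :=
  {e | (∃ v : TreeVertex k, v.1.length < k - 1 ∧ e = childrenOf v) ∨
    (∃ v : TreeVertex k, v.1.length = k - 1 ∧ e = pathTo v)}

/-- The trace hypergraph on the point set `P`: its edges are the sets `S ∩ P`, `S ∈ 𝒮`,
seen as sets of elements of `P`. -/
def traceEdges (P : Set (ℝ × ℝ)) (𝒮 : Set (Set (ℝ × ℝ))) : Set (Set P) :=
  {e | ∃ S ∈ 𝒮, e = {p : P | (p : ℝ × ℝ) ∈ S}}

/-- Isomorphism of hypergraphs given by their vertex types and edge sets. -/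
def HypergraphIso {V W : Type} (E : Set (Set V)) (F : Set (Set W)) : Prop :=
  ∃ f : V ≃ W, ∀ e : Set V, e ∈ E ↔ f '' e ∈ F

/-- An (open) axis-parallel rectangle. -/
def IsRectangle (S : Set (ℝ × ℝ)) : Prop :=
  ∃ a b c d : ℝ, a < b ∧ c < d ∧ S = Set.Ioo a b ×ˢ Set.Ioo c d

/-- Points whose coordinates lie weakly between coordinates of members of `E` lie in `E`. -/
def Conv {k : ℕ} (X Y : List (Fin k) → ℝ) (E : Set (List (Fin k))) : Prop :=
  ∀ z : List (Fin k), z.length < k →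
    (∃ a ∈ E, X a ≤ X z) → (∃ a ∈ E, X z ≤ X a) →
    (∃ a ∈ E, Y a ≤ Y z) → (∃ a ∈ E, Y z ≤ Y a) → z ∈ E

/-- The two families of constraints that a realization of `H_k` satisfies. -/
def Good {k : ℕ} (X Y : List (Fin k) → ℝ) : Prop :=
  (∀ v : List (Fin k), v.length < k → Conv X Y {w | w <+: v}) ∧
  (∀ v : List (Fin k), v.length + 1 < k → Conv X Y {w | ∃ i : Fin k, w = v ++ [i]})

/-- `z` lies in the closed quadrant of type `q` with apex `u`. -/
def InQ {k : ℕ} (X Y : List (Fin k) → ℝ) (q : Bool × Bool) (u z : List (Fin k)) : Prop :=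
  (if q.1 then X u ≤ X z else X z ≤ X u) ∧ (if q.2 then Y u ≤ Y z else Y z ≤ Y u)

/-- No proper descendant of `w` lies in the quadrant of type `q` of `w`. -/
def Forb {k : ℕ} (X Y : List (Fin k) → ℝ) (q : Bool × Bool) (w : List (Fin k)) : Prop :=
  ∀ z : List (Fin k), z.length < k → w <+: z → z ≠ w → ¬ InQ X Y q w z

lemma Conv.negX {k : ℕ} {X Y : List (Fin k) → ℝ} {E : Set (List (Fin k))}
    (h : Conv X Y E) : Conv (fun l => - X l) Y E := by
  intro z hz h1 h2 h3 h4
  refine h z hz ?_ ?_ h3 h4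
  · obtain ⟨a, ha, h⟩ := h2; exact ⟨a, ha, by simpa using h⟩
  · obtain ⟨a, ha, h⟩ := h1; exact ⟨a, ha, by simpa using h⟩

lemma Conv.negY {k : ℕ} {X Y : List (Fin k) → ℝ} {E : Set (List (Fin k))}
    (h : Conv X Y E) : Conv X (fun l => - Y l) E := by
  intro z hz h1 h2 h3 h4
  refine h z hz h1 h2 ?_ ?_
  · obtain ⟨a, ha, h⟩ := h4; exact ⟨a, ha, by simpa using h⟩
  · obtain ⟨a, ha, h⟩ := h3; exact ⟨a, ha, by simpa using h⟩

lemma Good.negX {k : ℕ} {X Y : List (Fin k) → ℝ} (h : Good X Y) :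
    Good (fun l => - X l) Y :=
  ⟨fun v hv => (h.1 v hv).negX, fun v hv => (h.2 v hv).negX⟩

lemma Good.negY {k : ℕ} {X Y : List (Fin k) → ℝ} (h : Good X Y) :
    Good X (fun l => - Y l) :=
  ⟨fun v hv => (h.1 v hv).negY, fun v hv => (h.2 v hv).negY⟩

/-- A child of `v` does not lie in the box spanned by an ancestor-or-self of `v` and another
child of `v`. -/
lemma Good.pair {k : ℕ} {X Y : List (Fin k) → ℝ} (h : Good X Y) {v a : List (Fin k)}
    (hv : v.length + 1 < k) (ha : a <+: v) {i j : Fin k} (hij : i ≠ j)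
    (h1 : X a ≤ X (v ++ [i]) ∨ X (v ++ [j]) ≤ X (v ++ [i]))
    (h2 : X (v ++ [i]) ≤ X a ∨ X (v ++ [i]) ≤ X (v ++ [j]))
    (h3 : Y a ≤ Y (v ++ [i]) ∨ Y (v ++ [j]) ≤ Y (v ++ [i]))
    (h4 : Y (v ++ [i]) ≤ Y a ∨ Y (v ++ [i]) ≤ Y (v ++ [j])) : False := by
  have hlen : (v ++ [j]).length < k := by simp; omega
  have hlen' : (v ++ [i]).length < k := by simp; omega
  have ha' : a <+: v ++ [j] := ha.trans (List.prefix_append v [j])
  have key := h.1 (v ++ [j]) hlen (v ++ [i]) hlen'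
  have hmem : (v ++ [i]) ∈ {w : List (Fin k) | w <+: v ++ [j]} := by
    apply key
    · rcases h1 with h1 | h1
      · exact ⟨a, ha', h1⟩
      · exact ⟨v ++ [j], List.prefix_refl _, h1⟩
    · rcases h2 with h1 | h1
      · exact ⟨a, ha', h1⟩
      · exact ⟨v ++ [j], List.prefix_refl _, h1⟩
    · rcases h3 with h1 | h1
      · exact ⟨a, ha', h1⟩
      · exact ⟨v ++ [j], List.prefix_refl _, h1⟩
    · rcases h4 with h1 | h1
      · exact ⟨a, ha', h1⟩
      · exact ⟨v ++ [j], List.prefix_refl _, h1⟩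
  have heq : v ++ [i] = v ++ [j] := List.IsPrefix.eq_of_length hmem (by simp)
  have : i = j := by simpa using heq
  exact hij this

/-- The middle one of three children in the north-east quadrant of a common ancestor has no
proper descendant in its own north-east quadrant. -/
lemma Good.mid_sorted {k : ℕ} {X Y : List (Fin k) → ℝ} (h : Good X Y) {v : List (Fin k)}
    (hv : v.length + 1 < k) {i j l : Fin k} (hij : i ≠ j) (hjl : j ≠ l)
    (hi : X v ≤ X (v ++ [i]) ∧ Y v ≤ Y (v ++ [i]))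
    (hj : X v ≤ X (v ++ [j]) ∧ Y v ≤ Y (v ++ [j]))
    (hl : X v ≤ X (v ++ [l]) ∧ Y v ≤ Y (v ++ [l]))
    (h1 : X (v ++ [i]) ≤ X (v ++ [j])) (h2 : X (v ++ [j]) ≤ X (v ++ [l])) :
    Forb X Y (true, true) (v ++ [j]) := by
  intro z hz hpre hne hin
  simp only [InQ, if_true] at hin
  obtain ⟨hx, hy⟩ := hin
  -- the three children are pairwise incomparable
  have a1 : ¬ Y (v ++ [i]) ≤ Y (v ++ [j]) := fun hle =>
    h.pair hv (List.prefix_refl v) hij (Or.inl hi.1) (Or.inr h1) (Or.inl hi.2) (Or.inr hle)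
  have a2 : ¬ Y (v ++ [j]) ≤ Y (v ++ [l]) := fun hle =>
    h.pair hv (List.prefix_refl v) hjl (Or.inl hj.1) (Or.inr h2) (Or.inl hj.2) (Or.inr hle)
  rw [not_le] at a1 a2
  have vpre : v <+: z := (List.prefix_append v [j]).trans hpre
  have notpre : ∀ m : Fin k, m ≠ j → ¬ (v ++ [m]) <+: z := by
    intro m hm hp
    have : v ++ [m] = v ++ [j] :=
      List.IsPrefix.eq_of_length (List.prefix_of_prefix_length_le hp hpre (by simp)) (by simp)
    exact hm (by simpa using this)
  have lenm : ∀ m : Fin k, (v ++ [m]).length < k := by intro m; simp; omega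
  -- `z` is below child `i`
  have b1 : ¬ Y (v ++ [i]) ≤ Y z := by
    intro hle
    have : (v ++ [i]) ∈ {w : List (Fin k) | w <+: z} := by
      apply h.1 z hz (v ++ [i]) (lenm i)
      · exact ⟨v, vpre, hi.1⟩
      · exact ⟨z, List.prefix_refl z, h1.trans hx⟩
      · exact ⟨v, vpre, hi.2⟩
      · exact ⟨z, List.prefix_refl z, hle⟩
    exact notpre i hij this
  -- `z` is left of child `l`
  have b2 : ¬ X (v ++ [l]) ≤ X z := by
    intro hle
    have : (v ++ [l]) ∈ {w : List (Fin k) | w <+: z} := by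
      apply h.1 z hz (v ++ [l]) (lenm l)
      · exact ⟨v, vpre, hl.1⟩
      · exact ⟨z, List.prefix_refl z, hle⟩
      · exact ⟨v, vpre, hl.2⟩
      · exact ⟨z, List.prefix_refl z, a2.le.trans hy⟩
    exact notpre l (Ne.symm hjl) this
  rw [not_le] at b1 b2
  -- hence `z` lies in the box of the siblings
  have : z ∈ {w : List (Fin k) | ∃ m : Fin k, w = v ++ [m]} := by
    apply h.2 v hv z hz
    · exact ⟨v ++ [j], ⟨j, rfl⟩, hx⟩
    · exact ⟨v ++ [l], ⟨l, rfl⟩, b2.le⟩
    · exact ⟨v ++ [j], ⟨j, rfl⟩, hy⟩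
    · exact ⟨v ++ [i], ⟨i, rfl⟩, b1.le⟩
  obtain ⟨m, rfl⟩ := this
  by_cases hm : m = j
  · exact hne (by rw [hm])
  · exact notpre m hm (List.prefix_refl _)

/-- Among three children in the north-east quadrant of their parent, one has no proper
descendant in its own north-east quadrant. -/
lemma Good.mid_tt {k : ℕ} {X Y : List (Fin k) → ℝ} (h : Good X Y) {v : List (Fin k)}
    (hv : v.length + 1 < k) {i j l : Fin k} (hij : i ≠ j) (hjl : j ≠ l) (hil : i ≠ l)
    (hi : X v ≤ X (v ++ [i]) ∧ Y v ≤ Y (v ++ [i]))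
    (hj : X v ≤ X (v ++ [j]) ∧ Y v ≤ Y (v ++ [j]))
    (hl : X v ≤ X (v ++ [l]) ∧ Y v ≤ Y (v ++ [l])) :
    ∃ m : Fin k, Forb X Y (true, true) (v ++ [m]) := by
  rcases le_total (X (v ++ [i])) (X (v ++ [j])) with h1 | h1 <;>
  rcases le_total (X (v ++ [j])) (X (v ++ [l])) with h2 | h2 <;>
  rcases le_total (X (v ++ [i])) (X (v ++ [l])) with h3 | h3
  · exact ⟨j, h.mid_sorted hv hij hjl hi hj hl h1 h2⟩
  · exact ⟨j, h.mid_sorted hv hij hjl hi hj hl h1 h2⟩
  · exact ⟨l, h.mid_sorted hv hil hjl.symm hi hl hj h3 h2⟩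
  · exact ⟨i, h.mid_sorted hv hil.symm hij hl hi hj h3 h1⟩
  · exact ⟨i, h.mid_sorted hv hij.symm hil hj hi hl h1 h3⟩
  · exact ⟨l, h.mid_sorted hv hjl hil.symm hj hl hi h2 h3⟩
  · exact ⟨j, h.mid_sorted hv hjl.symm hij.symm hl hj hi h2 h1⟩
  · exact ⟨j, h.mid_sorted hv hjl.symm hij.symm hl hj hi h2 h1⟩

/-- The same for an arbitrary quadrant type. -/
lemma Good.mid {k : ℕ} {X Y : List (Fin k) → ℝ} (h : Good X Y) {v : List (Fin k)}
    (hv : v.length + 1 < k) (q : Bool × Bool) {i j l : Fin k}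
    (hij : i ≠ j) (hjl : j ≠ l) (hil : i ≠ l)
    (hi : InQ X Y q v (v ++ [i])) (hj : InQ X Y q v (v ++ [j])) (hl : InQ X Y q v (v ++ [l])) :
    ∃ m : Fin k, Forb X Y q (v ++ [m]) := by
  obtain ⟨q1, q2⟩ := q
  cases q1 <;> cases q2 <;> simp only [InQ, if_true, if_false, Bool.false_eq_true] at hi hj hl
  · obtain ⟨m, hm⟩ := (h.negX.negY).mid_tt hv hij hjl hil (by simpa using hi) (by simpa using hj)
      (by simpa using hl)
    refine ⟨m, fun z hz hp hne hin => hm z hz hp hne ?_⟩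
    simpa [InQ] using hin
  · obtain ⟨m, hm⟩ := (h.negX).mid_tt hv hij hjl hil (by simpa using hi) (by simpa using hj)
      (by simpa using hl)
    refine ⟨m, fun z hz hp hne hin => hm z hz hp hne ?_⟩
    simpa [InQ] using hin
  · obtain ⟨m, hm⟩ := (h.negY).mid_tt hv hij hjl hil (by simpa using hi) (by simpa using hj)
      (by simpa using hl)
    refine ⟨m, fun z hz hp hne hin => hm z hz hp hne ?_⟩
    simpa [InQ] using hin
  · exact h.mid_tt hv hij hjl hil hi hj hl


/-- Each ancestor-or-self `a` of `v` has all children of `v` strictly on one side. -/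
lemma Good.sides {k : ℕ} {X Y : List (Fin k) → ℝ} (h : Good X Y) {v a : List (Fin k)}
    (hv : v.length + 1 < k) (ha : a <+: v) :
    (∀ i : Fin k, X (v ++ [i]) < X a) ∨ (∀ i : Fin k, X a < X (v ++ [i])) ∨
    (∀ i : Fin k, Y (v ++ [i]) < Y a) ∨ (∀ i : Fin k, Y a < Y (v ++ [i])) := by
  by_contra hcon
  simp only [not_or, not_forall, not_lt] at hcon
  obtain ⟨⟨i1, h1⟩, ⟨i2, h2⟩, ⟨i3, h3⟩, ⟨i4, h4⟩⟩ := hcon
  have hal : a.length ≤ v.length := ha.length_le
  have : a ∈ {w : List (Fin k) | ∃ m : Fin k, w = v ++ [m]} := by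
    apply h.2 v hv a (by omega)
    · exact ⟨v ++ [i2], ⟨i2, rfl⟩, h2⟩
    · exact ⟨v ++ [i1], ⟨i1, rfl⟩, h1⟩
    · exact ⟨v ++ [i4], ⟨i4, rfl⟩, h4⟩
    · exact ⟨v ++ [i3], ⟨i3, rfl⟩, h3⟩
  obtain ⟨m, rfl⟩ := this
  simp at hal

lemma cover8 {k : ℕ} (S1 S2 S3 S4 S5 S6 S7 S8 : Finset (Fin k))
    (h : ∀ i, i ∈ S1 ∨ i ∈ S2 ∨ i ∈ S3 ∨ i ∈ S4 ∨ i ∈ S5 ∨ i ∈ S6 ∨ i ∈ S7 ∨ i ∈ S8) :
    k ≤ S1.card + S2.card + S3.card + S4.card + S5.card + S6.card + S7.card + S8.card := by
  have h1 : (Finset.univ : Finset (Fin k)) ⊆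
      ((((((S1 ∪ S2) ∪ S3) ∪ S4) ∪ S5) ∪ S6) ∪ S7) ∪ S8 := by
    intro i _
    have := h i
    simp only [Finset.mem_union]
    tauto
  have h2 := Finset.card_le_card h1
  rw [Finset.card_univ, Fintype.card_fin] at h2
  have e1 := Finset.card_union_le S1 S2
  have e2 := Finset.card_union_le (S1 ∪ S2) S3
  have e3 := Finset.card_union_le ((S1 ∪ S2) ∪ S3) S4
  have e4 := Finset.card_union_le (((S1 ∪ S2) ∪ S3) ∪ S4) S5
  have e5 := Finset.card_union_le ((((S1 ∪ S2) ∪ S3) ∪ S4) ∪ S5) S6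
  have e6 := Finset.card_union_le (((((S1 ∪ S2) ∪ S3) ∪ S4) ∪ S5) ∪ S6) S7
  have e7 := Finset.card_union_le ((((((S1 ∪ S2) ∪ S3) ∪ S4) ∪ S5) ∪ S6) ∪ S7) S8
  omega

/-- If `k ≥ 6`, then three children of `v` lie in the same quadrant type of all
ancestors-or-self of `v` simultaneously. -/
lemma Good.triple {k : ℕ} {X Y : List (Fin k) → ℝ} (h : Good X Y) (hk : 6 ≤ k)
    {v : List (Fin k)} (hv : v.length + 1 < k) :
    ∃ q : Bool × Bool, ∃ i j l : Fin k, i ≠ j ∧ j ≠ l ∧ i ≠ l ∧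
      ∀ a : List (Fin k), a <+: v →
        InQ X Y q a (v ++ [i]) ∧ InQ X Y q a (v ++ [j]) ∧ InQ X Y q a (v ++ [l]) := by
  classical
  by_contra hcon
  have hne : (v.inits.toFinset).Nonempty := ⟨v, by simp [List.mem_inits]⟩
  obtain ⟨L, hL, hLm⟩ := Finset.exists_min_image v.inits.toFinset X hne
  obtain ⟨R, hR, hRm⟩ := Finset.exists_max_image v.inits.toFinset X hne
  obtain ⟨D, hD, hDm⟩ := Finset.exists_min_image v.inits.toFinset Y hne
  obtain ⟨U, hU, hUm⟩ := Finset.exists_max_image v.inits.toFinset Y hne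
  simp only [List.mem_toFinset, List.mem_inits] at hL hLm hR hRm hD hDm hU hUm
  -- filters
  set SNE := Finset.univ.filter (fun i : Fin k => X R < X (v ++ [i]) ∧ Y U < Y (v ++ [i])) with hNE
  set SNW := Finset.univ.filter (fun i : Fin k => X (v ++ [i]) < X L ∧ Y U < Y (v ++ [i])) with hNW
  set SSE := Finset.univ.filter (fun i : Fin k => X R < X (v ++ [i]) ∧ Y (v ++ [i]) < Y D) with hSE
  set SSW := Finset.univ.filter (fun i : Fin k => X (v ++ [i]) < X L ∧ Y (v ++ [i]) < Y D) with hSW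
  set SN := Finset.univ.filter (fun i : Fin k =>
    (X L ≤ X (v ++ [i]) ∧ X (v ++ [i]) ≤ X R) ∧ Y U < Y (v ++ [i])) with hN
  set SS := Finset.univ.filter (fun i : Fin k =>
    (X L ≤ X (v ++ [i]) ∧ X (v ++ [i]) ≤ X R) ∧ Y (v ++ [i]) < Y D) with hS
  set SW := Finset.univ.filter (fun i : Fin k =>
    (Y D ≤ Y (v ++ [i]) ∧ Y (v ++ [i]) ≤ Y U) ∧ X (v ++ [i]) < X L) with hW
  set SE := Finset.univ.filter (fun i : Fin k =>
    (Y D ≤ Y (v ++ [i]) ∧ Y (v ++ [i]) ≤ Y U) ∧ X R < X (v ++ [i])) with hE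
  have cNE : SNE.card ≤ 2 := by
    by_contra hc
    obtain ⟨a, ha, b, hb, c, hc, hab, hac, hbc⟩ := Finset.two_lt_card.mp (not_le.mp hc)
    simp only [hNE, Finset.mem_filter, Finset.mem_univ, true_and] at ha hb hc
    refine hcon ⟨(true, true), a, b, c, hab, hbc, hac, fun x hx => ?_⟩
    have e1 := hRm x hx
    have e2 := hUm x hx
    simp only [InQ, if_true]
    refine ⟨⟨?_, ?_⟩, ⟨?_, ?_⟩, ⟨?_, ?_⟩⟩ <;> linarith [ha.1, ha.2, hb.1, hb.2, hc.1, hc.2]
  have cNW : SNW.card ≤ 2 := by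
    by_contra hc
    obtain ⟨a, ha, b, hb, c, hc, hab, hac, hbc⟩ := Finset.two_lt_card.mp (not_le.mp hc)
    simp only [hNW, Finset.mem_filter, Finset.mem_univ, true_and] at ha hb hc
    refine hcon ⟨(false, true), a, b, c, hab, hbc, hac, fun x hx => ?_⟩
    have e1 := hLm x hx
    have e2 := hUm x hx
    simp only [InQ, if_true, if_false, Bool.false_eq_true]
    refine ⟨⟨?_, ?_⟩, ⟨?_, ?_⟩, ⟨?_, ?_⟩⟩ <;> linarith [ha.1, ha.2, hb.1, hb.2, hc.1, hc.2]
  have cSE : SSE.card ≤ 2 := by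
    by_contra hc
    obtain ⟨a, ha, b, hb, c, hc, hab, hac, hbc⟩ := Finset.two_lt_card.mp (not_le.mp hc)
    simp only [hSE, Finset.mem_filter, Finset.mem_univ, true_and] at ha hb hc
    refine hcon ⟨(true, false), a, b, c, hab, hbc, hac, fun x hx => ?_⟩
    have e1 := hRm x hx
    have e2 := hDm x hx
    simp only [InQ, if_true, if_false, Bool.false_eq_true]
    refine ⟨⟨?_, ?_⟩, ⟨?_, ?_⟩, ⟨?_, ?_⟩⟩ <;> linarith [ha.1, ha.2, hb.1, hb.2, hc.1, hc.2]
  have cSW : SSW.card ≤ 2 := by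
    by_contra hc
    obtain ⟨a, ha, b, hb, c, hc, hab, hac, hbc⟩ := Finset.two_lt_card.mp (not_le.mp hc)
    simp only [hSW, Finset.mem_filter, Finset.mem_univ, true_and] at ha hb hc
    refine hcon ⟨(false, false), a, b, c, hab, hbc, hac, fun x hx => ?_⟩
    have e1 := hLm x hx
    have e2 := hDm x hx
    simp only [InQ, if_false, Bool.false_eq_true]
    refine ⟨⟨?_, ?_⟩, ⟨?_, ?_⟩, ⟨?_, ?_⟩⟩ <;> linarith [ha.1, ha.2, hb.1, hb.2, hc.1, hc.2]
  have cN : SN.card ≤ 1 := by
    rw [Finset.card_le_one]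
    intro i hi j hj
    simp only [hN, Finset.mem_filter, Finset.mem_univ, true_and] at hi hj
    by_contra hij
    have e1 := hUm L hL
    have e2 := hUm R hR
    rcases le_total (X (v ++ [i])) (X (v ++ [j])) with h1 | h1 <;>
    rcases le_total (Y (v ++ [i])) (Y (v ++ [j])) with h2 | h2
    · exact h.pair hv hL hij (Or.inl hi.1.1) (Or.inr h1) (Or.inl (by linarith [hi.2])) (Or.inr h2)
    · exact h.pair hv hR (Ne.symm hij) (Or.inr h1) (Or.inl hj.1.2) (Or.inl (by linarith [hj.2]))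
        (Or.inr h2)
    · exact h.pair hv hR hij (Or.inr h1) (Or.inl hi.1.2) (Or.inl (by linarith [hi.2])) (Or.inr h2)
    · exact h.pair hv hL (Ne.symm hij) (Or.inl hj.1.1) (Or.inr h1) (Or.inl (by linarith [hj.2]))
        (Or.inr h2)
  have cS : SS.card ≤ 1 := by
    rw [Finset.card_le_one]
    intro i hi j hj
    simp only [hS, Finset.mem_filter, Finset.mem_univ, true_and] at hi hj
    by_contra hij
    have e1 := hDm L hL
    have e2 := hDm R hR
    rcases le_total (X (v ++ [i])) (X (v ++ [j])) with h1 | h1 <;>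
    rcases le_total (Y (v ++ [i])) (Y (v ++ [j])) with h2 | h2
    · exact h.pair hv hR (Ne.symm hij) (Or.inr h1) (Or.inl hj.1.2) (Or.inr h2)
        (Or.inl (by linarith [hj.2]))
    · exact h.pair hv hL hij (Or.inl hi.1.1) (Or.inr h1) (Or.inr h2) (Or.inl (by linarith [hi.2]))
    · exact h.pair hv hL (Ne.symm hij) (Or.inl hj.1.1) (Or.inr h1) (Or.inr h2)
        (Or.inl (by linarith [hj.2]))
    · exact h.pair hv hR hij (Or.inr h1) (Or.inl hi.1.2) (Or.inr h2) (Or.inl (by linarith [hi.2]))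
  have cW : SW.card ≤ 1 := by
    rw [Finset.card_le_one]
    intro i hi j hj
    simp only [hW, Finset.mem_filter, Finset.mem_univ, true_and] at hi hj
    by_contra hij
    have e1 := hLm D hD
    have e2 := hLm U hU
    rcases le_total (X (v ++ [i])) (X (v ++ [j])) with h1 | h1 <;>
    rcases le_total (Y (v ++ [i])) (Y (v ++ [j])) with h2 | h2
    · exact h.pair hv hU (Ne.symm hij) (Or.inr h1) (Or.inl (by linarith [hj.2])) (Or.inr h2)
        (Or.inl hj.1.2)
    · exact h.pair hv hD (Ne.symm hij) (Or.inr h1) (Or.inl (by linarith [hj.2])) (Or.inl hj.1.1)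
        (Or.inr h2)
    · exact h.pair hv hD hij (Or.inr h1) (Or.inl (by linarith [hi.2])) (Or.inl hi.1.1) (Or.inr h2)
    · exact h.pair hv hU hij (Or.inr h1) (Or.inl (by linarith [hi.2])) (Or.inr h2) (Or.inl hi.1.2)
  have cE : SE.card ≤ 1 := by
    rw [Finset.card_le_one]
    intro i hi j hj
    simp only [hE, Finset.mem_filter, Finset.mem_univ, true_and] at hi hj
    by_contra hij
    have e1 := hRm D hD
    have e2 := hRm U hU
    rcases le_total (X (v ++ [i])) (X (v ++ [j])) with h1 | h1 <;>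
    rcases le_total (Y (v ++ [i])) (Y (v ++ [j])) with h2 | h2
    · exact h.pair hv hD hij (Or.inl (by linarith [hi.2])) (Or.inr h1) (Or.inl hi.1.1) (Or.inr h2)
    · exact h.pair hv hU hij (Or.inl (by linarith [hi.2])) (Or.inr h1) (Or.inr h2) (Or.inl hi.1.2)
    · exact h.pair hv hU (Ne.symm hij) (Or.inl (by linarith [hj.2])) (Or.inr h1) (Or.inr h2)
        (Or.inl hj.1.2)
    · exact h.pair hv hD (Ne.symm hij) (Or.inl (by linarith [hj.2])) (Or.inr h1) (Or.inl hj.1.1)
        (Or.inr h2)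
  have cov := cover8 SNE SNW SSE SSW SN SS SW SE (by
    intro i
    simp only [hNE, hNW, hSE, hSW, hN, hS, hW, hE, Finset.mem_filter, Finset.mem_univ, true_and]
    have hlen : (v ++ [i]).length < k := by simp; omega
    have center : ¬ ((X L ≤ X (v ++ [i]) ∧ X (v ++ [i]) ≤ X R) ∧
        (Y D ≤ Y (v ++ [i]) ∧ Y (v ++ [i]) ≤ Y U)) := by
      rintro ⟨⟨g1, g2⟩, ⟨g3, g4⟩⟩
      have hm : (v ++ [i]) ∈ {w : List (Fin k) | w <+: v} :=
        h.1 v (by omega) (v ++ [i]) hlen ⟨L, hL, g1⟩ ⟨R, hR, g2⟩ ⟨D, hD, g3⟩ ⟨U, hU, g4⟩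
      have := List.IsPrefix.length_le hm
      simp at this
    rcases lt_or_ge (X (v ++ [i])) (X L) with g1 | g1 <;>
    rcases lt_or_ge (X R) (X (v ++ [i])) with g2 | g2 <;>
    rcases lt_or_ge (Y (v ++ [i])) (Y D) with g3 | g3 <;>
    rcases lt_or_ge (Y U) (Y (v ++ [i])) with g4 | g4 <;> tauto)
  -- emptiness of rows and columns
  have zE : (∀ i : Fin k, X (v ++ [i]) ≤ X R) → SNE.card = 0 ∧ SE.card = 0 ∧ SSE.card = 0 := by
    intro hh
    refine ⟨?_, ?_, ?_⟩ <;> rw [Finset.card_eq_zero, Finset.filter_eq_empty_iff] <;>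
      intro i _ hi
    · exact absurd hi.1 (not_lt.mpr (hh i))
    · exact absurd hi.2 (not_lt.mpr (hh i))
    · exact absurd hi.1 (not_lt.mpr (hh i))
  have zW : (∀ i : Fin k, X L ≤ X (v ++ [i])) → SNW.card = 0 ∧ SW.card = 0 ∧ SSW.card = 0 := by
    intro hh
    refine ⟨?_, ?_, ?_⟩ <;> rw [Finset.card_eq_zero, Finset.filter_eq_empty_iff] <;>
      intro i _ hi
    · exact absurd hi.1 (not_lt.mpr (hh i))
    · exact absurd hi.2 (not_lt.mpr (hh i))
    · exact absurd hi.1 (not_lt.mpr (hh i))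
  have zN : (∀ i : Fin k, Y (v ++ [i]) ≤ Y U) → SNW.card = 0 ∧ SN.card = 0 ∧ SNE.card = 0 := by
    intro hh
    refine ⟨?_, ?_, ?_⟩ <;> rw [Finset.card_eq_zero, Finset.filter_eq_empty_iff] <;>
      intro i _ hi
    · exact absurd hi.2 (not_lt.mpr (hh i))
    · exact absurd hi.2 (not_lt.mpr (hh i))
    · exact absurd hi.2 (not_lt.mpr (hh i))
  have zS : (∀ i : Fin k, Y D ≤ Y (v ++ [i])) → SSW.card = 0 ∧ SS.card = 0 ∧ SSE.card = 0 := by
    intro hh
    refine ⟨?_, ?_, ?_⟩ <;> rw [Finset.card_eq_zero, Finset.filter_eq_empty_iff] <;>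
      intro i _ hi
    · exact absurd hi.2 (not_lt.mpr (hh i))
    · exact absurd hi.2 (not_lt.mpr (hh i))
    · exact absurd hi.2 (not_lt.mpr (hh i))
  have zX : (∀ i : Fin k, ¬ (X L ≤ X (v ++ [i]) ∧ X (v ++ [i]) ≤ X R)) →
      SN.card = 0 ∧ SS.card = 0 := by
    intro hh
    refine ⟨?_, ?_⟩ <;> rw [Finset.card_eq_zero, Finset.filter_eq_empty_iff] <;>
      intro i _ hi
    · exact hh i hi.1
    · exact hh i hi.1
  have zY : (∀ i : Fin k, ¬ (Y D ≤ Y (v ++ [i]) ∧ Y (v ++ [i]) ≤ Y U)) →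
      SW.card = 0 ∧ SE.card = 0 := by
    intro hh
    refine ⟨?_, ?_⟩ <;> rw [Finset.card_eq_zero, Finset.filter_eq_empty_iff] <;>
      intro i _ hi
    · exact hh i hi.1
    · exact hh i hi.1
  have xLR : X L ≤ X R := hLm R hR
  have yDU : Y D ≤ Y U := hDm U hU
  have xLD := hLm D hD
  have xLU := hLm U hU
  have xDR := hRm D hD
  have xUR := hRm U hU
  have yDL := hDm L hL
  have yDR := hDm R hR
  have yLU := hUm L hL
  have yRU := hUm R hR
  rcases h.sides hv hL with a | a | a | a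
  · -- all left of `L`
    have z1 := zE (fun i => by linarith [a i])
    have z2 := zX (fun i hi => by linarith [a i, hi.1])
    omega
  · -- all right of `L`
    have z1 := zW (fun i => (a i).le)
    rcases h.sides hv hR with b | b | b | b
    · have z2 := zE (fun i => (b i).le)
      omega
    · have z2 := zX (fun i hi => by linarith [b i, hi.2])
      omega
    · have z2 := zN (fun i => by linarith [b i])
      omega
    · have z2 := zS (fun i => by linarith [b i])
      omega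
  · -- all below `L`
    have z1 := zN (fun i => by linarith [a i])
    rcases h.sides hv hR with b | b | b | b
    · have z2 := zE (fun i => (b i).le)
      omega
    · have z2 := zX (fun i hi => by linarith [b i, hi.2])
      have z3 := zW (fun i => by linarith [b i])
      omega
    · rcases h.sides hv hD with c | c | c | c
      · have z2 := zE (fun i => by linarith [c i])
        omega
      · have z2 := zW (fun i => by linarith [c i])
        omega
      · have z2 := zY (fun i hi => by linarith [c i, hi.1])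
        omega
      · have z2 := zS (fun i => (c i).le)
        omega
    · have z2 := zS (fun i => by linarith [b i])
      omega
  · -- all above `L`
    have z1 := zS (fun i => by linarith [a i])
    rcases h.sides hv hR with b | b | b | b
    · have z2 := zE (fun i => (b i).le)
      omega
    · have z2 := zX (fun i hi => by linarith [b i, hi.2])
      have z3 := zW (fun i => by linarith [b i])
      omega
    · have z2 := zN (fun i => by linarith [b i])
      omega
    · rcases h.sides hv hU with c | c | c | c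
      · have z2 := zE (fun i => by linarith [c i])
        omega
      · have z2 := zW (fun i => by linarith [c i])
        omega
      · have z2 := zN (fun i => (c i).le)
        omega
      · have z2 := zY (fun i hi => by linarith [c i, hi.2])
        omega

/-- The descent: at level `n` there is a vertex for which `n` distinct directions are
forbidden. -/
lemma Good.descent {k : ℕ} {X Y : List (Fin k) → ℝ} (h : Good X Y) (hk : 6 ≤ k) (n : ℕ)
    (hn : n < k) : ∃ v : List (Fin k), ∃ F : Finset (Bool × Bool), v.length = n ∧ F.card = n ∧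
      ∀ q ∈ F, ∃ a : List (Fin k), a <+: v ∧ Forb X Y q a := by
  induction n with
  | zero => exact ⟨[], ∅, rfl, rfl, by simp⟩
  | succ n ih =>
    obtain ⟨v, F, hvl, hF, hFq⟩ := ih (by omega)
    have hv : v.length + 1 < k := by omega
    obtain ⟨q, i, j, l, hij, hjl, hil, hq⟩ := h.triple hk hv
    have hqF : q ∉ F := by
      intro hmem
      obtain ⟨a, ha, hforb⟩ := hFq q hmem
      have hlen : (v ++ [i]).length < k := by simp; omega
      refine hforb (v ++ [i]) hlen (ha.trans (List.prefix_append v [i])) ?_ (hq a ha).1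
      intro heq
      have := ha.length_le
      rw [← heq] at this
      simp at this
    have hvv := hq v (List.prefix_refl v)
    obtain ⟨m, hm⟩ := h.mid hv q hij hjl hil hvv.1 hvv.2.1 hvv.2.2
    refine ⟨v ++ [m], insert q F, by simp [hvl], by rw [Finset.card_insert_of_notMem hqF, hF], ?_⟩
    intro q' hq'
    rw [Finset.mem_insert] at hq'
    rcases hq' with rfl | hq'
    · exact ⟨v ++ [m], List.prefix_refl _, hm⟩
    · obtain ⟨a, ha, hf⟩ := hFq q' hq'
      exact ⟨a, ha.trans (List.prefix_append v [m]), hf⟩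

lemma not_good {k : ℕ} {X Y : List (Fin k) → ℝ} (hk : 6 ≤ k) : ¬ Good X Y := by
  intro h
  obtain ⟨v, F, _, hF, _⟩ := h.descent hk 5 (by omega)
  have : F.card ≤ Fintype.card (Bool × Bool) := Finset.card_le_univ F
  simp at this
  omega


/-- A list that is an initial segment of two leaves `v ++ [c, ..., c]` with different `c` is an
initial segment of `v`. -/
lemma initial_of_two {k : ℕ} {v z : List (Fin k)} {n : ℕ} {c d : Fin k} (hcd : c ≠ d)
    (h1 : z <+: v ++ List.replicate n c) (h2 : z <+: v ++ List.replicate n d) : z <+: v := by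
  rcases le_or_gt z.length v.length with hl | hl
  · exact List.prefix_of_prefix_length_le h1 (List.prefix_append _ _) hl
  · exfalso
    have key : ∀ e : Fin k, z <+: v ++ List.replicate n e → z[v.length]? = some e := by
      intro e he
      obtain ⟨t, ht⟩ := he
      have hn : v.length < (v ++ List.replicate n e).length := by
        rw [← ht]; simp; omega
      have e1 : (z ++ t)[v.length]? = z[v.length]? := List.getElem?_append_left hl
      rw [← e1, ht, List.getElem?_append_right (le_refl _)]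
      have hn' : 0 < n := by simpa using hn
      rw [Nat.sub_self, List.getElem?_replicate, if_pos hn']
    have a1 := key c h1
    have a2 := key d h2
    rw [a1] at a2
    exact hcd (Option.some.inj a2)

theorem result (k : ℕ) (hk : 6 ≤ k) :
    ¬ ∃ (P : Set (ℝ × ℝ)) (𝒮 : Set (Set (ℝ × ℝ))),
      (∀ S ∈ 𝒮, IsRectangle S) ∧ HypergraphIso (treeEdges k) (traceEdges P 𝒮) := by
  rintro ⟨P, 𝒮, hrect, f, hf⟩
  -- every edge of the tree hypergraph is closed under coordinatewise betweenness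
  have hconv : ∀ e ∈ treeEdges k, ∀ z : TreeVertex k,
      (∃ a ∈ e, (f a : ℝ × ℝ).1 ≤ (f z : ℝ × ℝ).1) →
      (∃ a ∈ e, (f z : ℝ × ℝ).1 ≤ (f a : ℝ × ℝ).1) →
      (∃ a ∈ e, (f a : ℝ × ℝ).2 ≤ (f z : ℝ × ℝ).2) →
      (∃ a ∈ e, (f z : ℝ × ℝ).2 ≤ (f a : ℝ × ℝ).2) → z ∈ e := by
    rintro e he z ⟨a1, ha1, h1⟩ ⟨a2, ha2, h2⟩ ⟨a3, ha3, h3⟩ ⟨a4, ha4, h4⟩
    obtain ⟨S, hS, hSe⟩ := (hf e).mp he
    obtain ⟨a, b, c, d, _, _, rfl⟩ := hrect S hS
    have mem : ∀ w ∈ e, (f w : ℝ × ℝ) ∈ Set.Ioo a b ×ˢ Set.Ioo c d := by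
      intro w hw
      have : f w ∈ f '' e := ⟨w, hw, rfl⟩
      rw [hSe] at this
      exact this
    have m1 := mem a1 ha1
    have m2 := mem a2 ha2
    have m3 := mem a3 ha3
    have m4 := mem a4 ha4
    simp only [Set.mem_prod, Set.mem_Ioo] at m1 m2 m3 m4
    have hz : f z ∈ f '' e := by
      rw [hSe]
      change (f z : ℝ × ℝ) ∈ Set.Ioo a b ×ˢ Set.Ioo c d
      simp only [Set.mem_prod, Set.mem_Ioo]
      refine ⟨⟨?_, ?_⟩, ⟨?_, ?_⟩⟩ <;> linarith
    obtain ⟨w, hw, hwz⟩ := hz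
    rw [← f.injective hwz]
    exact hw
  let X : List (Fin k) → ℝ := fun l => if h : l.length < k then (f ⟨l, h⟩ : ℝ × ℝ).1 else 0
  let Y : List (Fin k) → ℝ := fun l => if h : l.length < k then (f ⟨l, h⟩ : ℝ × ℝ).2 else 0
  have hX : ∀ l (h : l.length < k), X l = (f ⟨l, h⟩ : ℝ × ℝ).1 := fun l h => by simp [X, h]
  have hY : ∀ l (h : l.length < k), Y l = (f ⟨l, h⟩ : ℝ × ℝ).2 := fun l h => by simp [Y, h]
  -- transfer to lists
  have trans : ∀ (e : Set (TreeVertex k)) (E : Set (List (Fin k))), e ∈ treeEdges k →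
      (∀ l ∈ E, l.length < k) → (∀ w : TreeVertex k, w ∈ e ↔ w.1 ∈ E) → Conv X Y E := by
    rintro e E he hE heE z hz ⟨a1, ha1, h1⟩ ⟨a2, ha2, h2⟩ ⟨a3, ha3, h3⟩ ⟨a4, ha4, h4⟩
    rw [hX z hz, hX a1 (hE a1 ha1)] at h1
    rw [hX z hz, hX a2 (hE a2 ha2)] at h2
    rw [hY z hz, hY a3 (hE a3 ha3)] at h3
    rw [hY z hz, hY a4 (hE a4 ha4)] at h4
    have := hconv e he ⟨z, hz⟩ ⟨⟨a1, hE a1 ha1⟩, (heE _).mpr ha1, h1⟩
      ⟨⟨a2, hE a2 ha2⟩, (heE _).mpr ha2, h2⟩ ⟨⟨a3, hE a3 ha3⟩, (heE _).mpr ha3, h3⟩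
      ⟨⟨a4, hE a4 ha4⟩, (heE _).mpr ha4, h4⟩
    exact (heE _).mp this
  refine not_good hk (X := X) (Y := Y) ⟨?_, ?_⟩
  · intro v hv z hz g1 g2 g3 g4
    -- both leaf extensions of `v`
    have ext : ∀ c : Fin k, z <+: v ++ List.replicate (k - 1 - v.length) c := by
      intro c
      have hlen : (v ++ List.replicate (k - 1 - v.length) c).length = k - 1 := by
        simp; omega
      have hlt : (v ++ List.replicate (k - 1 - v.length) c).length < k := by omega
      have hC := trans (pathTo ⟨_, hlt⟩) {w | w <+: v ++ List.replicate (k - 1 - v.length) c}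
        (Or.inr ⟨⟨_, hlt⟩, hlen, rfl⟩)
        (fun l hl => lt_of_le_of_lt (List.IsPrefix.length_le hl) hlt) (fun w => Iff.rfl)
      have up : ∀ a : List (Fin k), a <+: v →
          a <+: v ++ List.replicate (k - 1 - v.length) c :=
        fun a ha => ha.trans (List.prefix_append _ _)
      obtain ⟨a1, ha1, h1⟩ := g1
      obtain ⟨a2, ha2, h2⟩ := g2
      obtain ⟨a3, ha3, h3⟩ := g3
      obtain ⟨a4, ha4, h4⟩ := g4
      exact hC z hz ⟨a1, up a1 ha1, h1⟩ ⟨a2, up a2 ha2, h2⟩ ⟨a3, up a3 ha3, h3⟩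
        ⟨a4, up a4 ha4, h4⟩
    have hne : (⟨0, by omega⟩ : Fin k) ≠ ⟨1, by omega⟩ := by
      intro hcon
      have := congrArg Fin.val hcon
      simp at this
    exact initial_of_two hne (ext _) (ext _)
  · intro v hv
    have hlt : v.length < k := by omega
    refine trans (childrenOf ⟨v, hlt⟩) {w | ∃ i : Fin k, w = v ++ [i]}
      (Or.inl ⟨⟨v, hlt⟩, by show v.length < k - 1; omega, rfl⟩) ?_ (fun w => Iff.rfl)
    rintro l ⟨i, rfl⟩
    simp; omega

end Pool.Agent.Results.MP_a176d3_co.NotRealizable
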